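import Pool.Agent.V5helper43.WP.Stm

/-!
# Project WP (helper43), job DEP: `W` below `n` depends only on the shifts below `n` of the residue classes `≤ i`
-/

set_option autoImplicit false

open Finset

namespace Pool.Agent.V5helper27.WP

open Pool.Agent.V5helper43.WP

theorem le_a (k : ℕ) (t : ℕ → ℕ) (x : ℕ) (hk : 1 ≤ k) : x ≤ a k t x := by
  have h : x ≤ x ^ k := Nat.le_self_pow (by omega) x
  unfold a
  omega

theorem U_dep (k q : ℕ) (t t' : ℕ → ℕ) (n : ℕ) (hk : 1 ≤ k) (h : ∀ x ≤ n, x % q = 0 → t x = t' x) :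
    ∀ (j z : ℕ), z ≤ n → z ∈ U k q t j → z ∈ U k q t' j := by
  intro j
  induction j with
  | zero => intro z _ hz; exact hz
  | succ j ih =>
    intro z hz hzU
    obtain ⟨x, hx1, hqx, v, hv, rfl⟩ := hzU
    have hxa := le_a k t x hk
    have hxn : x ≤ n := by omega
    have htx : t x = t' x := h x hxn (Nat.mod_eq_zero_of_dvd hqx)
    refine ⟨x, hx1, hqx, v, ih v (by omega) hv, ?_⟩
    unfold a
    rw [htx]

theorem t_DEP : S_DEP := by
  intro k q j X t t' i n hk
  induction i with
  | zero =>
    intro h z hz hzW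
    exact U_dep k q t t' n hk (fun x hx hq => h x hx (by omega)) j z hz hzW
  | succ i ih =>
    intro h z hz hzW
    obtain ⟨x, hx, v, hv, rfl⟩ := hzW
    have hxa := le_a k t x hk
    have hxn : x ≤ n := by omega
    have hxq : x % q = i + 1 := (Finset.mem_filter.mp hx).2
    have htx : t x = t' x := h x hxn (by omega)
    refine ⟨x, hx, v, ih (fun y hy hyq => h y hy (by omega)) v (by omega) hv, ?_⟩
    unfold a
    rw [htx]

end Pool.Agent.V5helper27.WP
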